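import Pool.Agent.KS6_79.FD.P
import Pool.Graph.R_seed8.Helper38.Fom.Defs
import Pool.Graph.R_seed8.Helper38.Fom.Basic
import Pool.Graph.R_seed8.Helper38.Fom.Torus
import Pool.Graph.R_seed8.Helper38.Fom.Field
import Pool.Graph.R_seed8.Helper881.FmSpeiser

/-!
Fields of moduli over an arbitrary base field of characteristic zero (adapted from the library
proof over `ℚ`).
-/

set_option autoImplicit false

namespace Pool.Agent.KS6_79.FD

open MvPolynomial Pool.Agent.Helper881.FM Module
open Pool.Agent.Helper38.Fom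

/-- The action of a field automorphism on the coefficients. -/
noncomputable def gal {k : Type} [Field k] {K : Type} [Field K] [Algebra k K] {n : ℕ}
    (σ : K ≃ₐ[k] K) (F : Tuple K n) : Tuple K n :=
  fun i => map (σ : K →+* K) (F i)

/-- The field of moduli of `F` relative to the base field `k`: the fixed field of the set of all
`σ` in `Gal(K/k)` such that `F^σ` is conjugate to `F`. -/
def fieldOfModuli (k : Type) [Field k] {K : Type} [Field K] [Algebra k K] {n : ℕ}
    (F : Tuple K n) : Subfield K where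
  carrier := {x | ∀ σ : K ≃ₐ[k] K, Conjugate F (gal σ F) → σ x = x}
  mul_mem' := fun ha hb σ h => by rw [map_mul, ha σ h, hb σ h]
  one_mem' := fun σ _ => map_one σ
  add_mem' := fun ha hb σ h => by rw [map_add, ha σ h, hb σ h]
  zero_mem' := fun σ _ => map_zero σ
  neg_mem' := fun ha σ h => by rw [map_neg, ha σ h]
  inv_mem' := fun _ ha σ h => by rw [map_inv₀, ha σ h]

variable {k : Type} [Field k] {K : Type} [Field K] [Algebra k K] {n : ℕ}

theorem evt_gal (σ : K ≃ₐ[k] K) (F : Tuple K n) (x : Fin n → K) :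
    evt (gal σ F) (fun i => σ (x i)) = fun i => σ (evt F x i) := by
  funext i
  simp only [evt, gal]
  rw [eval_map]
  have h := MvPolynomial.eval₂_comp_left (σ : K →+* K) (RingHom.id K) x (F i)
  rw [MvPolynomial.eval₂_id] at h
  exact h.symm

theorem gal_eq_self (σ : K ≃ₐ[k] K) (F : Tuple K n)
    (h : ∀ i m, σ (coeff m (F i)) = coeff m (F i)) : gal σ F = F := by
  funext i
  ext m
  simp only [gal, coeff_map]
  exact h i m





/-- pairs of a field automorphism and a semilinear bijection commuting with the tuple -/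
structure EGP (F : Tuple K n) (p : (K ≃ₐ[k] K) × Equiv.Perm (Fin n → K)) : Prop where
  add : ∀ v w : Fin n → K, p.2 (v + w) = p.2 v + p.2 w
  smul : ∀ (a : K) (v : Fin n → K), p.2 (a • v) = p.1 a • p.2 v
  comm : ∀ v, evt F (p.2 v) = p.2 (evt F v)

variable (k) in
/-- pairs -/
def EG (F : Tuple K n) : Subgroup ((K ≃ₐ[k] K) × Equiv.Perm (Fin n → K)) where
  carrier := {p | EGP F p}
  mul_mem' := by
    rintro ⟨σ, g⟩ ⟨τ, h⟩ ⟨h0, h1, h2⟩ ⟨h0', h3, h4⟩
    refine ⟨fun v w => ?_, fun a v => ?_, fun v => ?_⟩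
    · show g (h (v + w)) = g (h v) + g (h w)
      exact (congrArg g (h0' v w)).trans (h0 _ _)
    · show g (h (a • v)) = σ (τ a) • g (h v)
      exact (congrArg g (h3 a v)).trans (h1 _ _)
    · show evt F (g (h v)) = g (h (evt F v))
      exact (h2 _).trans (congrArg g (h4 v))
  one_mem' := ⟨fun v w => rfl, fun a v => rfl, fun v => rfl⟩
  inv_mem' := by
    rintro ⟨σ, g⟩ ⟨h0, h1, h2⟩
    refine ⟨fun v w => ?_, fun a v => ?_, fun v => ?_⟩
    · show g.symm (v + w) = g.symm v + g.symm w
      apply g.injective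
      rw [Equiv.apply_symm_apply]
      refine Eq.trans ?_ (h0 _ _).symm
      show v + w = g (g.symm v) + g (g.symm w)
      rw [Equiv.apply_symm_apply, Equiv.apply_symm_apply]
    · show g.symm (a • v) = σ.symm a • g.symm v
      apply g.injective
      rw [Equiv.apply_symm_apply]
      refine Eq.trans ?_ (h1 _ _).symm
      show a • v = σ (σ.symm a) • g (g.symm v)
      rw [Equiv.apply_symm_apply, AlgEquiv.apply_symm_apply]
    · show evt F (g.symm v) = g.symm (evt F v)
      apply g.injective
      rw [Equiv.apply_symm_apply]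
      refine (h2 _).symm.trans ?_
      show evt F (g (g.symm v)) = evt F v
      rw [Equiv.apply_symm_apply]

variable (k) in
/-- the projection to the Galois group -/
def pr (F : Tuple K n) : EG k F →* (K ≃ₐ[k] K) := (MonoidHom.fst _ _).comp (EG k F).subtype

variable (k) in
/-- the semilinear action -/
def rho (F : Tuple K n) : SR (pr k F) (Fin n → K) where
  act e v := e.1.2 v
  one v := rfl
  mul e e' v := rfl
  add e v w := e.2.add v w
  smul e a v := e.2.smul a v

theorem rho_comm (F : Tuple K n) (e : EG k F) (v : Fin n → K) :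
    evt F ((rho k F).act e v) = (rho k F).act e (evt F v) := e.2.comm v

theorem rho_faithful (F : Tuple K n) (e : EG k F) (h1 : pr k F e = 1)
    (h2 : ∀ v, (rho k F).act e v = v) : e = 1 := by
  apply Subtype.ext
  apply Prod.ext
  · exact h1
  · exact Equiv.ext h2

/-- the standard element -/
def stdPair (σ : K ≃ₐ[k] K) : (K ≃ₐ[k] K) × Equiv.Perm (Fin n → K) :=
  (σ, { toFun := fun v i => σ (v i)
        invFun := fun v i => σ.symm (v i)
        left_inv := fun v => by funext i; simp
        right_inv := fun v => by funext i; simp })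

theorem stdPair_mem (F : Tuple K n) (σ : K ≃ₐ[k] K) (h : gal σ F = F) : stdPair σ ∈ EG k F := by
  refine ⟨fun v w => ?_, fun a v => ?_, fun v => ?_⟩
  · funext i
    exact map_add σ (v i) (w i)
  · funext i
    exact map_mul σ a (v i)
  · have := evt_gal σ F v
    rw [h] at this
    exact this

theorem rho_smooth [Algebra.IsAlgebraic k K] (F : Tuple K n) : (rho k F).Smooth := by
  classical
  intro S
  let A : Set K := {a | ∃ i, ∃ m ∈ (F i).support, a = coeff m (F i)} ∪
    {a | ∃ v ∈ S, ∃ i, a = v i}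
  have hA : A.Finite := by
    apply Set.Finite.union
    · have : {a | ∃ i, ∃ m ∈ (F i).support, a = coeff m (F i)} =
        ⋃ i, (fun m => coeff m (F i)) '' ((F i).support : Set (Fin n →₀ ℕ)) := by
        ext a
        simp only [Set.mem_setOf_eq, Set.mem_iUnion, Set.mem_image, Finset.mem_coe]
        constructor
        · rintro ⟨i, m, hm, rfl⟩
          exact ⟨i, m, hm, rfl⟩
        · rintro ⟨i, m, hm, rfl⟩
          exact ⟨i, m, hm, rfl⟩
      rw [this]
      exact Set.finite_iUnion fun i => (Finset.finite_toSet _).image _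
    · have : {a | ∃ v ∈ S, ∃ i, a = v i} = ⋃ v ∈ S, Set.range v := by
        ext a
        simp only [Set.mem_setOf_eq, Set.mem_iUnion, Set.mem_range, exists_prop]
        constructor
        · rintro ⟨v, hv, i, rfl⟩
          exact ⟨v, hv, i, rfl⟩
        · rintro ⟨v, hv, i, rfl⟩
          exact ⟨v, hv, i, rfl⟩
      rw [this]
      exact Set.Finite.biUnion (Finset.finite_toSet S) fun v _ => Set.finite_range v
  refine ⟨IntermediateField.adjoin k A, ?_, fun σ hσ => ?_⟩
  · have := hA.to_subtype
    exact IntermediateField.finiteDimensional_adjoin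
      fun x _ => Algebra.IsIntegral.isIntegral x
  · have hg : gal σ F = F := by
      apply gal_eq_self
      intro i m
      by_cases hm : coeff m (F i) = 0
      · rw [hm, map_zero]
      · exact hσ _ (IntermediateField.subset_adjoin k A
          (Or.inl ⟨i, m, mem_support_iff.mpr hm, rfl⟩))
    refine ⟨⟨stdPair σ, stdPair_mem F σ hg⟩, rfl, fun v hv => ?_⟩
    funext i
    exact hσ _ (IntermediateField.subset_adjoin k A (Or.inr ⟨v, hv, i, rfl⟩))





variable (k) in
/-- the linear automorphism given by an element of the kernel -/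
def kerLin (F : Tuple K n) (e : (pr k F).ker) : (Fin n → K) ≃ₗ[K] (Fin n → K) where
  toFun := (rho k F).act e.1
  map_add' := (rho k F).add e.1
  map_smul' a v := by
    rw [(rho k F).smul]
    have : pr k F e.1 = 1 := e.2
    rw [this]
    rfl
  invFun := (rho k F).act e.1⁻¹
  left_inv v := (rho k F).inv_act e.1 v
  right_inv v := (rho k F).act_inv e.1 v

variable (k) in
/-- the homomorphism from the kernel to the linear group -/
def kerHom (F : Tuple K n) : (pr k F).ker →* ((Fin n → K) ≃ₗ[K] (Fin n → K)) where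
  toFun := kerLin k F
  map_one' := LinearEquiv.ext fun _ => rfl
  map_mul' _ _ := LinearEquiv.ext fun _ => rfl

theorem kerHom_apply (F : Tuple K n) (e : (pr k F).ker) (v : Fin n → K) :
    kerHom k F e v = (rho k F).act e.1 v := rfl

theorem kerHom_injective (F : Tuple K n) : Function.Injective (kerHom k F) := by
  rw [injective_iff_map_eq_one]
  intro e he
  apply Subtype.ext
  apply rho_faithful F e.1 e.2
  intro v
  rw [← kerHom_apply, he]
  rfl

theorem ker_finite [IsAlgClosed K] (ι : K →+* ℂ) {d : ℕ} (hd : 2 ≤ d) {F : Tuple K n}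
    (hF : IsMorphism d F) :
    Finite (pr k F).ker ∧ ∃ A : Subgroup (pr k F).ker, (∀ a ∈ A, ∀ b ∈ A, a * b = b * a) ∧
      A.index ≤ 5 ^ (2 * (n * n)) := by
  obtain ⟨h1, A, h2, h3⟩ := part1 n K ι d hd F hF.homogeneous (fun x hx => hF.no_common_zero x
    fun i => congrFun hx i) (kerHom k F).range (by
      rintro g ⟨e, rfl⟩ x
      exact rho_comm F e.1 x)
  let eq : (pr k F).ker ≃* (kerHom k F).range := MonoidHom.ofInjective (kerHom_injective F)
  refine ⟨Finite.of_injective eq eq.injective, A.comap eq.toMonoidHom, ?_, ?_⟩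
  · intro a ha b hb
    apply eq.injective
    rw [map_mul, map_mul]
    exact h2 _ ha _ hb
  · rw [Subgroup.index_comap_of_surjective]
    · exact h3
    · exact eq.surjective


variable [CharZero K]

theorem diag_coeff (F : Tuple K n) (g : EG k F) (w : Basis (Fin n) K (Fin n → K)) (c : Fin n → K)
    (hc : ∀ i, (rho k F).act g (w i) = c i • w i) (i : Fin n) (m : Fin n →₀ ℕ) :
    coeff m (conj F (basisGL w) i) * ∏ j, c j ^ m j =
      c i * pr k F g (coeff m (conj F (basisGL w) i)) := by
  have hinf : Infinite K := by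
    have : CharZero K := inferInstance
    infer_instance
  obtain ⟨F', hF'⟩ : ∃ F' : Tuple K n, F' = conj F (basisGL w) := ⟨_, rfl⟩
  rw [← hF']
  have hH : ∀ x : Fin n → K, (basisGL w).1.mulVec (fun i => c i * pr k F g (x i)) =
      (rho k F).act g ((basisGL w).1.mulVec x) := by
    intro x
    rw [basisGL_mulVec, basisGL_mulVec, (rho k F).sum]
    refine Finset.sum_congr rfl fun j _ => ?_
    rw [(rho k F).smul, hc, smul_smul, mul_comm]
  have hI : ∀ y : Fin n → K, ((basisGL w)⁻¹).1.mulVec ((basisGL w).1.mulVec y) = y := by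
    intro y
    rw [Matrix.mulVec_mulVec]
    have : ((basisGL w)⁻¹).1 * (basisGL w).1 = 1 := (basisGL w).inv_val
    rw [this, Matrix.one_mulVec]
  have hI' : ∀ y : Fin n → K, (basisGL w).1.mulVec (((basisGL w)⁻¹).1.mulVec y) = y := by
    intro y
    rw [Matrix.mulVec_mulVec]
    have : (basisGL w).1 * ((basisGL w)⁻¹).1 = 1 := (basisGL w).val_inv
    rw [this, Matrix.one_mulVec]
  have hev : ∀ x : Fin n → K, evt F' (fun i => c i * pr k F g (x i)) =
      fun i => c i * pr k F g (evt F' x i) := by
    intro x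
    have h1 : evt F ((basisGL w).1.mulVec x) = (basisGL w).1.mulVec (evt F' x) := by
      rw [hF', evt_conj, hI']
    have h2 : evt F' (fun i => c i * pr k F g (x i)) =
        ((basisGL w)⁻¹).1.mulVec (evt F ((basisGL w).1.mulVec (fun i => c i * pr k F g (x i)))) := by
      rw [hF', evt_conj]
    rw [h2, hH, rho_comm, h1, ← hH, hI]
  have hpoly : bind₁ (fun j => C (c j) * X j) (F' i) = C (c i) * gal (pr k F g) F' i := by
    apply MvPolynomial.funext
    intro y
    obtain ⟨x, rfl⟩ : ∃ x : Fin n → K, y = fun i => pr k F g (x i) :=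
      ⟨fun i => (pr k F g).symm (y i), by funext i; simp⟩
    have h1 := congrFun (hev x) i
    have h2 := congrFun (evt_gal (pr k F g) F' x) i
    simp only [evt] at h1 h2
    rw [map_mul, eval_C, h2, ← h1]
    rw [← MvPolynomial.coe_aeval_eq_eval, ← MvPolynomial.coe_aeval_eq_eval]
    simp only [RingHom.coe_coe]
    rw [MvPolynomial.aeval_bind₁]
    congr 2
    funext j
    simp
  have := congrArg (coeff m) hpoly
  rw [coeff_scale, coeff_C_mul] at this
  rw [this]
  simp only [gal, coeff_map]
  rfl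

theorem diag_normal [IsAlgClosed K] (F : Tuple K n) (G : Subgroup (EG k F))
    (w : Basis (Fin n) K (Fin n → K))
    (hw : ∀ g ∈ G, ∀ i, ∃ c : K, (rho k F).act g (w i) = c • w i) :
    ∃ M : Matrix.GeneralLinearGroup (Fin n) K, ∀ g ∈ G, ∀ i m,
      pr k F g (coeff m (conj F M i)) = coeff m (conj F M i) := by
  classical
  have hinf : Infinite K := by
    have : CharZero K := inferInstance
    infer_instance
  obtain ⟨F', hF'⟩ : ∃ F' : Tuple K n, F' = conj F (basisGL w) := ⟨_, rfl⟩
  obtain ⟨T, hT⟩ := exists_torus {s : Fin n × (Fin n →₀ ℕ) // coeff s.2 (F' s.1) ≠ 0}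
    (fun s => Units.mk0 _ s.2) (fun s => expo s.1.1 s.1.2)
  refine ⟨basisGL w * diagGL T, fun g hg i m => ?_⟩
  rw [← Pool.Agent.Helper38.Fom.conj_mul, ← hF', coeff_conj_diag]
  by_cases h0 : coeff m (F' i) = 0
  · rw [h0, zero_mul, map_zero]
  choose c hc using hw g hg
  have hc0 : ∀ i, c i ≠ 0 := by
    intro i hi
    have h1 := hc i
    rw [hi, zero_smul, ← (rho k F).zero g] at h1
    exact w.ne_zero i ((rho k F).injective g h1)
  have h2 := hT (pr k F g).toRingEquiv (fun i => Units.mk0 (c i) (hc0 i)) (by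
    rintro ⟨⟨i', m'⟩, hs⟩
    apply Units.ext
    rw [chi_expo]
    have h3 := diag_coeff F g w c hc i' m'
    rw [← hF'] at h3
    simp only [Units.coe_map, MonoidHom.coe_coe, Units.val_mk0, Units.val_mul, Units.coe_prod,
      Units.val_pow_eq_pow_val, Units.val_inv_eq_inv_val]
    rw [← mul_assoc, eq_mul_inv_iff_mul_eq₀ (hc0 i'), h3, mul_comm]
    rfl) ⟨⟨i, m⟩, h0⟩
  exact h2

/-- every Galois element fixing the isomorphism class lifts -/
theorem exists_lift [IsAlgClosed K] {d : ℕ} (hd : 2 ≤ d) {F : Tuple K n} (hF : IsMorphism d F)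
    (σ : K ≃ₐ[k] K) (h : Conjugate F (gal σ F)) : ∃ e : EG k F, pr k F e = σ := by
  obtain ⟨M, c, hc, hM⟩ := h
  obtain ⟨l, hl⟩ := IsAlgClosed.exists_pow_nat_eq c (n := d - 1) (by omega)
  have hl0 : l ≠ 0 := by
    rintro rfl
    rw [zero_pow (by omega)] at hl
    exact hc hl.symm
  let h : Equiv.Perm (Fin n → K) :=
    { toFun := fun v => l • M.1.mulVec (fun i => σ (v i))
      invFun := fun v i => σ.symm ((M⁻¹).1.mulVec (l⁻¹ • v) i)
      left_inv := fun v => by
        funext i
        show σ.symm ((M⁻¹).1.mulVec (l⁻¹ • l • M.1.mulVec (fun i => σ (v i))) i) = v i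
        rw [inv_smul_smul₀ hl0, mulVec_inv_cancel]
        simp
      right_inv := fun v => by
        show l • M.1.mulVec (fun i => σ (σ.symm ((M⁻¹).1.mulVec (l⁻¹ • v) i))) = v
        simp only [AlgEquiv.apply_symm_apply]
        rw [mulVec_cancel_inv, smul_inv_smul₀ hl0] }
  have hh : ∀ v, h v = l • M.1.mulVec (fun i => σ (v i)) := fun v => rfl
  refine ⟨⟨(σ, h), ⟨fun v w => ?_, fun a v => ?_, fun v => ?_⟩⟩, rfl⟩
  · show h (v + w) = h v + h w
    rw [hh, hh, hh, ← smul_add, ← Matrix.mulVec_add]
    congr 2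
    funext i
    exact map_add σ (v i) (w i)
  · show h (a • v) = σ a • h v
    rw [hh, hh, smul_comm, ← Matrix.mulVec_smul M.1 (σ a)]
    congr 2
    funext i
    exact map_mul σ a (v i)
  · show evt F (h v) = h (evt F v)
    have h1 := evt_conjugate hM (fun i => σ (v i))
    rw [evt_gal] at h1
    rw [hh, hh, evt_smul hF.homogeneous, h1, Matrix.mulVec_smul, mulVec_cancel_inv, smul_smul]
    congr 1
    rw [← hl, ← pow_succ']
    congr 1
    omega

theorem map_mulVec_gal (σ : K ≃ₐ[k] K) (M : Matrix.GeneralLinearGroup (Fin n) K)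
    (y : Fin n → K) : (fun i => σ (M.1.mulVec y i)) =
      (Matrix.GeneralLinearGroup.map (σ : K →+* K) M).1.mulVec (fun i => σ (y i)) := by
  funext i
  exact RingHom.map_mulVec (σ : K →+* K) M.1 y i

/-- a Galois element fixing a field of definition fixes the isomorphism class -/
theorem conjugate_of_fix {F : Tuple K n} {L : Subfield K} (h : IsFieldOfDefinition F L)
    (σ : K ≃ₐ[k] K) (hσ : ∀ x ∈ L, σ x = x) : Conjugate F (gal σ F) := by
  have hinf : Infinite K := by
    have : CharZero K := inferInstance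
    infer_instance
  obtain ⟨G, ⟨M, c, hc, hM⟩, hG⟩ := h
  have hGG : gal σ G = G := gal_eq_self σ G fun i m => hσ _ (hG i m)
  have hσc : σ c ≠ 0 := by
    intro h0
    exact hc (by simpa using h0)
  obtain ⟨N, hN⟩ : ∃ N : Matrix.GeneralLinearGroup (Fin n) K,
    N = Matrix.GeneralLinearGroup.map (σ : K →+* K) M := ⟨_, rfl⟩
  have hNi : ∀ y : Fin n → K, (fun i => σ ((M⁻¹).1.mulVec y i)) =
      (N⁻¹).1.mulVec (fun i => σ (y i)) := by
    intro y
    rw [hN, ← map_inv]
    exact map_mulVec_gal σ M⁻¹ y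
  have hNn : ∀ y : Fin n → K, (fun i => σ (M.1.mulVec y i)) =
      N.1.mulVec (fun i => σ (y i)) := by
    intro y
    rw [hN]
    exact map_mulVec_gal σ M y
  refine ⟨M * N⁻¹, c / σ c, div_ne_zero hc hσc, ?_⟩
  have key : gal σ F = fun i => C (c / σ c) * conj F (M * N⁻¹) i := by
    apply evt_ext
    intro y
    obtain ⟨x, rfl⟩ : ∃ x : Fin n → K, y = fun i => σ (x i) :=
      ⟨fun i => σ.symm (y i), by funext i; simp⟩
    have h1 : ∀ z, evt F z = c⁻¹ • M.1.mulVec (evt G ((M⁻¹).1.mulVec z)) := by
      intro z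
      rw [evt_conjugate hM, mulVec_cancel_inv, Matrix.mulVec_smul, mulVec_cancel_inv,
        inv_smul_smul₀ hc]
    have h2 : ∀ z, (fun i => σ (evt G z i)) = evt G (fun i => σ (z i)) := by
      intro z
      rw [← evt_gal, hGG]
    rw [evt_gal, evt_C_mul, evt_conj, mul_inv_rev, inv_inv]
    have h3 : (fun i => σ (evt F x i)) = (σ c)⁻¹ •
        N.1.mulVec (evt G ((N⁻¹).1.mulVec (fun i => σ (x i)))) := by
      rw [h1]
      have h4 : (fun i => σ ((c⁻¹ • M.1.mulVec (evt G ((M⁻¹).1.mulVec x))) i)) =
          (σ c)⁻¹ • (fun i => σ ((M.1.mulVec (evt G ((M⁻¹).1.mulVec x))) i)) := by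
        funext i
        simp
      rw [h4, hNn, h2, hNi]
    rw [h3, evt_conjugate hM]
    simp only [Units.val_mul, Matrix.mulVec_mulVec, Matrix.mulVec_smul, smul_smul]
    rw [div_eq_inv_mul]
  exact fun i => congrFun key i

/-- every field of definition containing the base field contains the field of moduli -/
theorem fieldOfModuli_le [IsGalois k K] {F : Tuple K n} {L : Subfield K}
    (hk : ∀ x : k, algebraMap k K x ∈ L) (h : IsFieldOfDefinition F L) :
    fieldOfModuli k F ≤ L := by
  intro x hx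
  let L' : IntermediateField k K := L.toIntermediateField hk
  have h1 : x ∈ IntermediateField.fixedField L'.fixingSubgroup := by
    rw [IntermediateField.mem_fixedField_iff]
    intro σ hσ
    apply hx
    apply conjugate_of_fix h
    intro y hy
    exact (IntermediateField.mem_fixingSubgroup_iff L' σ).mp hσ y hy
  rw [InfiniteGalois.fixedField_fixingSubgroup] at h1
  exact h1

/-- the fixed field of a subgroup of symmetries -/
def fixF (F : Tuple K n) (G : Subgroup (EG k F)) : Subfield K where
  carrier := {x | ∀ g ∈ G, pr k F g x = x}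
  mul_mem' := fun ha hb σ h => by rw [map_mul, ha σ h, hb σ h]
  one_mem' := fun σ _ => map_one (pr k F σ)
  add_mem' := fun ha hb σ h => by rw [map_add, ha σ h, hb σ h]
  zero_mem' := fun σ _ => map_zero (pr k F σ)
  neg_mem' := fun ha σ h => by rw [map_neg, ha σ h]
  inv_mem' := fun _ ha σ h => by rw [map_inv₀, ha σ h]

/-- the explicit bound for `n = N + 1` variables, with `J = 5 ^ (2 n²)` -/
def bnd (n : ℕ) : ℕ :=
  n ^ n * (n ^ n * (2 ^ (5 ^ (2 * (n * n)) * (5 ^ (2 * (n * n))) ^ (5 ^ (2 * (n * n))))) ^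
    (2 ^ (5 ^ (2 * (n * n)) * (5 ^ (2 * (n * n))) ^ (5 ^ (2 * (n * n))))))

/-- explicit uniform bound over every base field which embeds in `ℂ` -/
theorem uniform_bound (k : Type) [Field k] (K : Type) [Field K] [CharZero K] [Algebra k K]
    [IsAlgClosed K] [Algebra.IsAlgebraic k K] (ι : K →+* ℂ) {n : ℕ} {d : ℕ} (hd : 2 ≤ d)
    {F : Tuple K n} (hF : IsMorphism d F) :
    ∃ L : Subfield K, (∀ x : k, algebraMap k K x ∈ L) ∧ IsFieldOfDefinition F L ∧
      fieldOfModuli k F ≤ L ∧ Subfield.relrank (fieldOfModuli k F) L ≤ (bnd n : Cardinal) := by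
  have hk0 : CharZero k := (algebraMap k K).charZero
  obtain ⟨hk1, hk2⟩ := ker_finite (k := k) ι hd hF
  obtain ⟨G, hG0, hGD, w, hw⟩ := part2 n (5 ^ (2 * (n * n))) k K (EG k F) (pr k F) (Fin n → K)
    (rho k F) (Module.finrank_fin_fun K) (rho_smooth F) (rho_faithful F) hk1 hk2
  obtain ⟨M, hM⟩ := diag_normal F G w hw
  have hgal : IsGalois k K :=
    { to_isSeparable := inferInstance
      to_normal := normal_iff.mpr fun x =>
        ⟨Algebra.IsIntegral.isIntegral x, IsAlgClosed.splits _⟩ }
  have hdef : IsFieldOfDefinition F (fixF F G) :=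
    ⟨conj F M, ⟨M, 1, one_ne_zero, fun i => by rw [C_1, one_mul]⟩, fun i m g hg => hM g hg i m⟩
  have hkL : ∀ x : k, algebraMap k K x ∈ fixF F G := fun x g _ => (pr k F g).commutes x
  have hle : fieldOfModuli k F ≤ fixF F G := fieldOfModuli_le hkL hdef
  refine ⟨fixF F G, hkL, hdef, hle, ?_⟩
  let act : EG k F →* (K ≃+* K) :=
    { toFun := fun e => (pr k F e).toRingEquiv
      map_one' := rfl
      map_mul' := fun _ _ => rfl }
  have h1 := artin_bound act G hG0 (fieldOfModuli k F) (fixF F G) (by
    intro x hx σ hσ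
    obtain ⟨e, rfl⟩ := exists_lift hd hF σ hσ
    exact hx e) (fun x hx g hg => hx g hg) hle
  exact h1.trans (by exact_mod_cast hGD)

end Pool.Agent.KS6_79.FD
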