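import Pool.Graph.R_seed8.Helper561.FomFinite
import Pool.Graph.R_seed8.Helper881.FomPart2

/-!
The two group-theoretic ingredients of the library proof of the uniform bound, with explicit
constants.
-/

set_option autoImplicit false

namespace Pool.Agent.KS6_79.FD

section one

open Module Pool.Agent.Helper561.FOM MvPolynomial

/-- PART I: finiteness of the stabiliser and a bounded index abelian subgroup. -/
theorem part1 (n : ℕ) : ∀ (F : Type) [Field F] [IsAlgClosed F] (ι : F →+* ℂ) (d : ℕ),
    2 ≤ d → ∀ f : Fin n → MvPolynomial (Fin n) F, (∀ i, (f i).IsHomogeneous d) →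
    (∀ x : Fin n → F, (fun i => eval x (f i)) = 0 → x = 0) →
    ∀ N : Subgroup ((Fin n → F) ≃ₗ[F] (Fin n → F)),
      (∀ g ∈ N, ∀ x, (fun i => eval (g x) (f i)) = g (fun i => eval x (f i))) →
      Finite N ∧ ∃ A : Subgroup N, (∀ a ∈ A, ∀ b ∈ A, a * b = b * a) ∧ A.index ≤ 5 ^ (2 * (n * n)) := by
  intro F _ _ ι d hd f hhom hnz N hN
  -- the representation over `ℂ`
  let ρ : N →* ((Fin n → ℂ) →ₗ[ℂ] (Fin n → ℂ)) :=
    { toFun := fun g => Matrix.toLin' ((LinearMap.toMatrix' (g.1 : (Fin n → F) →ₗ[F] (Fin n → F))).map ι)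
      map_one' := by
        have : LinearMap.toMatrix' (((1 : N).1 : (Fin n → F) ≃ₗ[F] (Fin n → F)) : (Fin n → F) →ₗ[F] (Fin n → F)) = 1 := by
          exact LinearMap.toMatrix'_one
        rw [this, Matrix.map_one _ (map_zero ι) (map_one ι), Matrix.toLin'_one]
        rfl
      map_mul' := by
        intro g h
        have : LinearMap.toMatrix' (((g * h : N).1 : (Fin n → F) ≃ₗ[F] (Fin n → F)) : (Fin n → F) →ₗ[F] (Fin n → F)) =
          LinearMap.toMatrix' (g.1 : (Fin n → F) →ₗ[F] (Fin n → F)) *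
            LinearMap.toMatrix' (h.1 : (Fin n → F) →ₗ[F] (Fin n → F)) := by
          exact LinearMap.toMatrix'_mul _ _
        rw [this, Matrix.map_mul, Matrix.toLin'_mul]
        rfl }
  have hρinj : Function.Injective ρ := by
    intro g h hgh
    have h1 : (LinearMap.toMatrix' (g.1 : (Fin n → F) →ₗ[F] (Fin n → F))).map ι =
        (LinearMap.toMatrix' (h.1 : (Fin n → F) →ₗ[F] (Fin n → F))).map ι :=
      Matrix.toLin'.injective hgh
    have h2 := Matrix.map_injective ι.injective h1
    have h3 := LinearMap.toMatrix'.injective h2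
    apply Subtype.ext
    exact LinearEquiv.toLinearMap_injective h3
  have hmat : ∀ (g : N) (x : Fin n → F) i, eval ((LinearMap.toMatrix' (g.1 : (Fin n → F) →ₗ[F] (Fin n → F))).mulVec x) (f i)
      = ∑ j, (LinearMap.toMatrix' (g.1 : (Fin n → F) →ₗ[F] (Fin n → F))) i j * eval x (f j) := by
    intro g x i
    rw [LinearMap.toMatrix'_mulVec]
    have h1 := congrFun (hN g.1 g.2 x) i
    have h2 : (g.1 (fun i => eval x (f i))) i =
        ((LinearMap.toMatrix' (g.1 : (Fin n → F) →ₗ[F] (Fin n → F))).mulVec (fun i => eval x (f i))) i := by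
      rw [LinearMap.toMatrix'_mulVec]; rfl
    rw [h2] at h1
    simpa [Matrix.mulVec, dotProduct] using h1
  let fC : (Fin n → ℂ) → (Fin n → ℂ) := fun x i => eval x (MvPolynomial.map ι (f i))
  have hcomm : ∀ g x, fC (ρ g x) = ρ g (fC x) := by
    intro g x
    funext i
    have := equivariant_map ι f _ (hmat g) x i
    show eval (Matrix.toLin' _ x) _ = (Matrix.toLin' _ _) i
    rw [Matrix.toLin'_apply, Matrix.toLin'_apply, this]
    simp [Matrix.mulVec, dotProduct, fC]
  have hfin : Finite N := by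
    rcases Nat.eq_zero_or_pos n with hn | hn
    · subst hn
      have : Subsingleton ((Fin 0 → F) ≃ₗ[F] (Fin 0 → F)) := by
        constructor
        intro a b
        ext x i
        exact i.elim0
      infer_instance
    · have : Nonempty (Fin n) := ⟨⟨0, hn⟩⟩
      refine finite_of_commute (E := Fin n → ℂ) fC ?_ d hd ?_ ?_ ρ hρinj hcomm
      · exact continuous_pi (fun i => MvPolynomial.continuous_eval _)
      · intro t x
        funext i
        exact eval_smul_of_homogeneous _ ((hhom i).map ι) t x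
      · intro x hx
        exact no_zero_map ι f (fun y hy => hnz y (funext hy)) x (fun i => congrFun hx i)
  refine ⟨hfin, ?_⟩
  obtain ⟨A, hA, hi⟩ := jordan_linear ρ hρinj
  refine ⟨A, hA, hi.trans (le_of_eq ?_)⟩
  rw [Module.finrank_fin_fun]

end one

section two

open Module Pool.Agent.Helper881.FM Pool.Agent.Helper881.FOM

/-- from a finite kernel with an abelian subgroup of small index to a subgroup of small index
acting by semilinear diagonal maps -/
theorem part2 (n J : ℕ) : ∀ (B F : Type) [Field B] [Field F] [Algebra B F] [CharZero F]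
    [Algebra.IsAlgebraic B F] [IsAlgClosed F] (E : Type) [Group E] (π : E →* (F ≃ₐ[B] F))
    (V : Type) [AddCommGroup V] [Module F V] [FiniteDimensional F V] (ρ : SR π V),
    finrank F V = n → ρ.Smooth →
    (∀ e, π e = 1 → (∀ v, ρ.act e v = v) → e = 1) → Finite π.ker →
    (∃ A : Subgroup π.ker, (∀ a ∈ A, ∀ b ∈ A, a * b = b * a) ∧ A.index ≤ J) →
    ∃ G : Subgroup E, G.index ≠ 0 ∧ G.index ≤ n ^ n * (n ^ n * (2 ^ (J * J ^ J)) ^ (2 ^ (J * J ^ J))) ∧ ∃ w : Basis (Fin n) F V,
      ∀ g ∈ G, ∀ i, ∃ c : F, ρ.act g (w i) = c • w i := by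
  classical
  intro B F _ _ _ _ _ _ E _ π V _ _ _ ρ hn hsm hfaith hfin hJ
  subst hn
  obtain ⟨H, M, hM, hH0, hHi, hHM, hHk, hop⟩ := exists_good ρ J hfaith hJ
  obtain ⟨T, l, u, hTc, hl, hu⟩ := exists_regular ρ hsm M hM H hHM hHk hop
  -- coefficients of eigenvectors
  have hcoef : ∀ (μ : F) (v : V), T v = μ • v → ∀ j, l j ≠ μ → u.repr v j = 0 := by
    intro μ v hv j hj
    have h1 : T v = ∑ i, (u.repr v i * l i) • u i := by
      conv_lhs => rw [← u.sum_repr v]
      rw [map_sum]
      exact Finset.sum_congr rfl fun i _ => by rw [map_smul, hu, smul_smul]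
    have h2 : u.repr (T v) j = u.repr v j * l j := by
      rw [h1, u.repr_sum_self]
    rw [hv, map_smul, Finsupp.smul_apply, smul_eq_mul] at h2
    have h3 : u.repr v j * (l j - μ) = 0 := by rw [mul_sub, ← h2]; ring
    rcases mul_eq_zero.mp h3 with h | h
    · exact h
    · exact absurd (sub_eq_zero.mp h) hj
  let _ : MulAction E F :=
    { smul := fun g x => π g x
      one_smul := fun x => by show π 1 x = x; rw [map_one]; rfl
      mul_smul := fun a b x => by show π (a * b) x = π a (π b x); rw [map_mul]; rfl }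
  have hsm' : ∀ (g : E) (x : F), g • x = π g x := fun _ _ => rfl
  have hTg : ∀ g ∈ H, ∀ i, T (ρ.act g (u i)) = π g (l i) • ρ.act g (u i) := by
    intro g hg i
    rw [← hTc g hg, hu, ρ.smul]
  obtain ⟨G, hGH, hGa, hGb, hGc, _⟩ := stab_bound H (Set.range l) (Set.finite_range l)
    (finrank F V) (by
      rw [← Set.image_univ]
      refine (Set.ncard_image_le Set.finite_univ).trans ?_
      simp [Set.ncard_univ]) (by
      rintro g hg _ ⟨i, rfl⟩
      rw [hsm']
      by_contra hcon
      have hne : ρ.act g (u i) ≠ 0 := fun h0 =>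
        u.ne_zero i (ρ.injective g (h0.trans (ρ.zero g).symm))
      apply hne
      apply u.repr.injective
      rw [map_zero]
      ext j
      exact hcoef _ _ (hTg g hg i) j fun h => hcon ⟨j, h⟩)
  refine ⟨G, ?_, ?_, u, ?_⟩
  · rw [← Subgroup.relIndex_mul_index hGH]
    exact mul_ne_zero hGa hH0
  · rw [← Subgroup.relIndex_mul_index hGH]
    exact Nat.mul_le_mul hGb hHi
  · intro g hg i
    have h1 : π g (l i) = l i := hGc g hg _ ⟨i, rfl⟩
    have h2 := hTg g (hGH hg) i
    rw [h1] at h2
    refine ⟨u.repr (ρ.act g (u i)) i, ?_⟩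
    apply u.repr.injective
    ext j
    rw [map_smul, u.repr_self, Finsupp.smul_apply, Finsupp.single_apply]
    by_cases hij : i = j
    · subst hij; simp
    · rw [if_neg hij, smul_zero]
      exact hcoef _ _ h2 j fun h => hij (hl h).symm

end two

end Pool.Agent.KS6_79.FD
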